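import Mathlib

/-!
# Random digital nets in a large base: definitions

`Vec b n` is the space of points of the net, coordinates `q < n`.  The `x`-digits of `k` are
`k 0, k 1, ...`, the `y`-digits are `k (n-1), k (n-2), ...` and the `z`-digits are
`dot (row t) k + sig t`.
-/

namespace DiscUB

open Finset

/-- vectors over `F_b` -/
abbrev Vec (b n : ℕ) := Fin n → ZMod b

variable {b n : ℕ}

/-- scalar product -/
def dot (r k : Vec b n) : ZMod b := ∑ q, r q * k q

/-- `v` vanishes outside `[p, p + m)` -/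
def supp (p m : ℕ) (v : Vec b n) : Prop := ∀ q : Fin n, (q : ℕ) < p ∨ p + m ≤ (q : ℕ) → v q = 0

/-- `u` is the kernel system of the rows `row s`, `s < t` -/
structure Ker (row : ℕ → Vec b n) (t : ℕ) (u : ℕ → Vec b n) : Prop where
  ker : ∀ s < t, ∀ p, p + t < n → dot (row s) (u p) = 0
  sup : ∀ p, p + t < n → supp p (t + 1) (u p)
  left : ∀ p (h : p + t < n), u p ⟨p, by omega⟩ ≠ 0
  right : ∀ p (h : p + t < n), u p ⟨p + t, h⟩ ≠ 0
  uniq : ∀ p, ∀ v : Vec b n, (∀ s < t, dot (row s) v = 0) → supp p t v → v = 0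

/-- the first `t` digits of `k` in the third coordinate are `Z` -/
def mtch (row : ℕ → Vec b n) (sig Z : ℕ → ZMod b) (t : ℕ) (k : Vec b n) : Prop :=
  ∀ s < t, dot (row s) k + sig s = Z s

/-- `x(k) < X` -/
def ltx (k X : Vec b n) : Prop := ∃ i : Fin n, (∀ q < i, k q = X q) ∧ (k i).val < (X i).val

/-- `y(k) < Y` -/
def lty (k Y : Vec b n) : Prop := ∃ i : Fin n, (∀ q, i < q → k q = Y q) ∧ (k i).val < (Y i).val

open Classical in
/-- the sum over the points of the box with matching first `t` third digits of `G(t-th digit)`;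
`r`, `σ` are the `t`-th row and shift -/
noncomputable def TT [NeZero b] (row : ℕ → Vec b n) (sig Z : ℕ → ZMod b) (X Y : Vec b n) (t : ℕ)
    (r : Vec b n) (σ : ZMod b) (G : ZMod b → ℝ) : ℝ :=
  ∑ k : Vec b n, if mtch row sig Z t k ∧ ltx k X ∧ lty k Y then G (dot r k + σ) else 0

/-- `0.Z_t Z_{t+1} ... Z_{n-1}` in base `b` -/
noncomputable def fr (b n : ℕ) (Z : ℕ → ZMod b) (t : ℕ) : ℝ :=
  ∑ s ∈ range (n - t), ((Z (t + s)).val : ℝ) / (b : ℝ) ^ (s + 1)

/-- the increment function of the `t`-th digit -/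
noncomputable def GG (b n : ℕ) (Z : ℕ → ZMod b) (t : ℕ) (v : ZMod b) : ℝ :=
  (if v.val < (Z t).val then 1 else 0) + (if v = Z t then fr b n Z (t + 1) else 0) - fr b n Z t

/-- the digits of the points `w_i` -/
def vs (μ c : ℕ → ZMod b) (V : ZMod b) (i : ℕ) : ZMod b := V - ∑ j ∈ range i, μ j * c j

noncomputable def X0 (μ : ℕ → ZMod b) (N N' : ℕ → Finset (ZMod b)) (G : ZMod b → ℝ) (V : ZMod b)
    (c : ℕ → ZMod b) (i : ℕ) : ℝ :=
  ∑ ν ∈ N i, ∑ ν' ∈ N' i, G (vs μ c V (i + 1) + ν * c i + ν' * c (i + 1))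

noncomputable def X1 (μ : ℕ → ZMod b) (B : ℕ → Finset (ZMod b)) (G : ZMod b → ℝ) (V : ZMod b)
    (c : ℕ → ZMod b) (i : ℕ) : ℝ :=
  ∑ ν ∈ B i, G (vs μ c V (i + 1) + ν * c i)

/-- the main part of a row -/
noncomputable def Ph (m : ℕ) (μ : ℕ → ZMod b) (N N' B : ℕ → Finset (ZMod b)) (G : ZMod b → ℝ)
    (V : ZMod b) (c : ℕ → ZMod b) : ℝ :=
  ∑ i ∈ range (m - 1), X0 μ N N' G V c i + ∑ i ∈ range m, X1 μ B G V c i

/-- iterated average over the values `a 0, ..., a (m-1)` -/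
noncomputable def Ex {A : Type*} [Fintype A] [Inhabited A] : ℕ → ((ℕ → A) → ℝ) → ℝ
  | 0, F => F (fun _ => default)
  | m + 1, F => Ex m (fun c => (Fintype.card A : ℝ)⁻¹ * ∑ a, F (Function.update c m a))

/-- extension of a finite digit string -/
def ext (Z : Vec b n) (s : ℕ) : ZMod b := if h : s < n then Z ⟨s, h⟩ else 0

/-- the first coordinate of the point `k`, as an integer in `[0, b^n)` -/
def v1 (k : Vec b n) : ℕ := ∑ q : Fin n, (k q).val * b ^ (n - 1 - (q : ℕ))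

/-- the second coordinate -/
def v2 (k : Vec b n) : ℕ := ∑ q : Fin n, (k q).val * b ^ (q : ℕ)

/-- the third coordinate -/
def v3 (row : ℕ → Vec b n) (sig : ℕ → ZMod b) (k : Vec b n) : ℕ :=
  ∑ t ∈ range n, (dot (row t) k + sig t).val * b ^ (n - 1 - t)

end DiscUB
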