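import Pool.Agent.Work.DiscUB.Defs

/-!
# Lexicographic telescoping for the third coordinate
-/

namespace DiscUB

open Finset

variable {b n : ℕ}

theorem lex_fr_of_le (Z : ℕ → ZMod b) {t : ℕ} (h : n ≤ t) : fr b n Z t = 0 := by
  unfold fr
  rw [Nat.sub_eq_zero_of_le h]
  simp

theorem lex_fr_step [Fact b.Prime] (Z : ℕ → ZMod b) {t : ℕ} (h : t < n) :
    (b : ℝ) * fr b n Z t = ((Z t).val : ℝ) + fr b n Z (t + 1) := by
  have hb : (b : ℝ) ≠ 0 := by
    have := (Fact.out : b.Prime).pos
    positivity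
  unfold fr
  have e : n - t = (n - (t + 1)) + 1 := by omega
  rw [e, sum_range_succ', mul_add, mul_sum]
  have e2 : (b : ℝ) * (((Z (t + 0)).val : ℝ) / (b : ℝ) ^ (0 + 1)) = ((Z t).val : ℝ) := by
    simp only [Nat.add_zero, Nat.zero_add, pow_one]
    field_simp
  rw [e2, add_comm]
  congr 1
  apply sum_congr rfl
  intro s _
  have e3 : t + (s + 1) = t + 1 + s := by omega
  rw [e3, pow_succ (b : ℝ) (s + 1)]
  field_simp

theorem fr_nonneg (Z : ℕ → ZMod b) (t : ℕ) : 0 ≤ fr b n Z t := by
  unfold fr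
  apply sum_nonneg
  intro s _
  positivity

theorem fr_le_one [Fact b.Prime] (Z : ℕ → ZMod b) (t : ℕ) : fr b n Z t ≤ 1 := by
  have hb1 : 1 ≤ b := (Fact.out : b.Prime).one_lt.le
  have hb : (0 : ℝ) < (b : ℝ) := by
    have := (Fact.out : b.Prime).pos
    exact_mod_cast this
  have : NeZero b := ⟨by omega⟩
  have key : ∀ m t, n - t = m → fr b n Z t ≤ 1 := by
    intro m
    induction m with
    | zero =>
      intro t ht
      rw [lex_fr_of_le Z (by omega)]
      norm_num
    | succ m ih =>
      intro t ht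
      have h1 := ih (t + 1) (by omega)
      have h2 := lex_fr_step (n := n) Z (t := t) (by omega)
      have h3 : ((Z t).val : ℝ) + 1 ≤ b := by
        have := ZMod.val_lt (Z t)
        exact_mod_cast this
      have h4 : (b : ℝ) * fr b n Z t ≤ (b : ℝ) * 1 := by
        rw [h2]; linarith
      exact le_of_mul_le_mul_left h4 hb
  exact key (n - t) t rfl

theorem lex_card_val_lt [Fact b.Prime] (z : ZMod b) :
    ((univ.filter (fun v : ZMod b => v.val < z.val)).card : ℝ) = (z.val : ℝ) := by
  have hb0 : 0 < b := (Fact.out : b.Prime).pos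
  have : NeZero b := ⟨by omega⟩
  have : (univ.filter (fun v : ZMod b => v.val < z.val)).card = (range z.val).card := by
    apply card_bij (fun v _ => v.val)
    · intro v hv
      simpa using hv
    · intro v _ w _ h
      exact ZMod.val_injective b h
    · intro m hm
      rw [mem_range] at hm
      have hmb : m < b := lt_trans hm (ZMod.val_lt z)
      have e : ((m : ZMod b)).val = m := ZMod.val_cast_of_lt hmb
      refine ⟨(m : ZMod b), ?_, e⟩
      simp only [mem_filter, mem_univ, true_and]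
      rw [e]; exact hm
  rw [this, card_range]

theorem GG_sum [Fact b.Prime] (Z : ℕ → ZMod b) {t : ℕ} (ht : t < n) :
    ∑ v, GG b n Z t v = 0 := by
  have hs := lex_fr_step (n := n) Z ht
  unfold GG
  rw [sum_sub_distrib, sum_add_distrib, sum_const, sum_ite_eq' univ (Z t)]
  simp only [mem_univ, if_true, card_univ, ZMod.card, nsmul_eq_mul]
  rw [← sum_filter, sum_const, nsmul_eq_mul, mul_one, lex_card_val_lt, hs]
  ring

theorem GG_abs [Fact b.Prime] (Z : ℕ → ZMod b) (t : ℕ) (v : ZMod b) : |GG b n Z t v| ≤ 1 := by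
  have h0 := fr_nonneg (n := n) Z t
  have h1 := fr_le_one (n := n) Z t
  have h2 := fr_nonneg (n := n) Z (t + 1)
  have h3 := fr_le_one (n := n) Z (t + 1)
  unfold GG
  rw [abs_le]
  by_cases hv : v = Z t
  · rw [if_pos hv, if_neg (by rw [hv]; exact lt_irrefl _)]
    constructor <;> linarith
  · rw [if_neg hv]
    split_ifs <;> constructor <;> linarith

open Classical in
theorem lex_partial [Fact b.Prime] (Z ζ : ℕ → ZMod b) (T : ℕ) :
    (if ∃ t < T, (∀ s < t, ζ s = Z s) ∧ (ζ t).val < (Z t).val then (1 : ℝ) else 0)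
      + (if ∀ s < T, ζ s = Z s then fr b n Z T else 0) =
      fr b n Z 0 + ∑ t ∈ range T, if ∀ s < t, ζ s = Z s then GG b n Z t (ζ t) else 0 := by
  induction T with
  | zero => simp
  | succ T ih =>
    rw [sum_range_succ, ← add_assoc, ← ih]
    by_cases hP : ∀ s < T, ζ s = Z s
    · have hA : ¬ ∃ t < T, (∀ s < t, ζ s = Z s) ∧ (ζ t).val < (Z t).val := by
        rintro ⟨t, ht, _, h2⟩
        rw [hP t ht] at h2
        exact lt_irrefl _ h2
      rw [if_neg hA, if_pos hP, if_pos hP]
      unfold GG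
      by_cases hE : ζ T = Z T
      · have hP1 : ∀ s < T + 1, ζ s = Z s := by
          intro s hs
          rcases Nat.lt_succ_iff_lt_or_eq.mp hs with h | h
          · exact hP s h
          · rw [h]; exact hE
        have hA1 : ¬ ∃ t < T + 1, (∀ s < t, ζ s = Z s) ∧ (ζ t).val < (Z t).val := by
          rintro ⟨t, ht, _, h2⟩
          rw [hP1 t ht] at h2
          exact lt_irrefl _ h2
        rw [if_neg hA1, if_pos hP1, if_pos hE, if_neg (by rw [hE]; exact lt_irrefl _)]
        ring
      · have hP1 : ¬ ∀ s < T + 1, ζ s = Z s := fun h => hE (h T (Nat.lt_succ_self T))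
        rw [if_neg hP1, if_neg hE]
        by_cases hL : (ζ T).val < (Z T).val
        · have hA1 : ∃ t < T + 1, (∀ s < t, ζ s = Z s) ∧ (ζ t).val < (Z t).val :=
            ⟨T, Nat.lt_succ_self T, hP, hL⟩
          rw [if_pos hA1, if_pos hL]
          ring
        · have hA1 : ¬ ∃ t < T + 1, (∀ s < t, ζ s = Z s) ∧ (ζ t).val < (Z t).val := by
            rintro ⟨t, ht, h1, h2⟩
            rcases Nat.lt_succ_iff_lt_or_eq.mp ht with h | h
            · exact hA ⟨t, h, h1, h2⟩
            · rw [h] at h2; exact hL h2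
          rw [if_neg hA1, if_neg hL]
          ring
    · have hP1 : ¬ ∀ s < T + 1, ζ s = Z s := fun h => hP (fun s hs => h s (by omega))
      rw [if_neg hP, if_neg hP1, if_neg hP]
      have hiff : (∃ t < T + 1, (∀ s < t, ζ s = Z s) ∧ (ζ t).val < (Z t).val) ↔
          ∃ t < T, (∀ s < t, ζ s = Z s) ∧ (ζ t).val < (Z t).val := by
        constructor
        · rintro ⟨t, ht, h1, h2⟩
          rcases Nat.lt_succ_iff_lt_or_eq.mp ht with h | h
          · exact ⟨t, h, h1, h2⟩
          · rw [h] at h1; exact absurd h1 hP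
        · rintro ⟨t, ht, h1, h2⟩
          exact ⟨t, by omega, h1, h2⟩
      simp only [hiff, add_zero]

open Classical in
theorem lex_tel [Fact b.Prime] (Z ζ : ℕ → ZMod b) :
    (if ∃ t < n, (∀ s < t, ζ s = Z s) ∧ (ζ t).val < (Z t).val then (1 : ℝ) else 0) =
      fr b n Z 0 + ∑ t ∈ range n, if ∀ s < t, ζ s = Z s then GG b n Z t (ζ t) else 0 := by
  have h := lex_partial (n := n) Z ζ n
  rw [lex_fr_of_le (n := n) Z (le_refl n)] at h
  rw [← h]
  simp

end DiscUB
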