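import Pool.Agent.Work.DiscUB.Defs

/-!
# Random digital nets in a large base: linear algebra (helper54)
-/

namespace DiscUB

open Finset

variable {b n : ℕ}

theorem lin_dot_add_right (r v w : Vec b n) : dot r (v + w) = dot r v + dot r w := by
  simp only [dot, Pi.add_apply, mul_add, sum_add_distrib]

theorem lin_dot_sub_right (r v w : Vec b n) : dot r (v - w) = dot r v - dot r w := by
  simp only [dot, Pi.sub_apply, mul_sub, sum_sub_distrib]

theorem lin_dot_smul_right (r : Vec b n) (a : ZMod b) (v : Vec b n) :
    dot r (a • v) = a * dot r v := by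
  simp only [dot, Pi.smul_apply, smul_eq_mul, mul_sum]
  exact sum_congr rfl fun q _ => by ring

theorem lin_dot_add_left (r s v : Vec b n) : dot (r + s) v = dot r v + dot s v := by
  simp only [dot, Pi.add_apply, add_mul, sum_add_distrib]

theorem lin_dot_single (i : Fin n) (a : ZMod b) (v : Vec b n) :
    dot (Pi.single i a) v = a * v i := by
  simp only [dot]
  rw [Finset.sum_eq_single i]
  · rw [Pi.single_eq_same]
  · intro j _ hj
    rw [Pi.single_eq_of_ne hj, zero_mul]
  · intro h; exact absurd (mem_univ i) h

theorem Ker_zero [Fact b.Prime] (row : ℕ → Vec b n) :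
    Ker row 0 (fun p q => if (q : ℕ) = p then 1 else 0) where
  ker := fun s hs => absurd hs (Nat.not_lt_zero s)
  sup := by
    intro p _ q hq
    have hne : (q : ℕ) ≠ p := by omega
    simp only [if_neg hne]
  left := by
    intro p _
    simp
  right := by
    intro p _
    simp
  uniq := by
    intro p v _ hv
    funext q
    exact hv q (by omega)

theorem Ker_succ [Fact b.Prime] {row : ℕ → Vec b n} {t : ℕ} {u : ℕ → Vec b n} (h : Ker row t u)
    (ht : t < n) {r : Vec b n} (hr : ∀ p, p + t < n → dot r (u p) ≠ 0) :
    Ker (Function.update row t r) (t + 1)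
      (fun p => dot r (u (p + 1)) • u p - dot r (u p) • u (p + 1)) where
  ker := by
    intro s hs p hp
    rcases Nat.lt_succ_iff_lt_or_eq.1 hs with hs' | rfl
    · rw [Function.update_of_ne (Nat.ne_of_lt hs'), lin_dot_sub_right, lin_dot_smul_right,
        lin_dot_smul_right, h.ker s hs' p (by omega), h.ker s hs' (p + 1) (by omega)]
      ring
    · rw [Function.update_self, lin_dot_sub_right, lin_dot_smul_right, lin_dot_smul_right]
      ring
  sup := by
    intro p hp q hq
    have h1 : u p q = 0 := h.sup p (by omega) q (by omega)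
    have h2 : u (p + 1) q = 0 := h.sup (p + 1) (by omega) q (by omega)
    simp only [Pi.sub_apply, Pi.smul_apply, smul_eq_mul, h1, h2, mul_zero, sub_zero]
  left := by
    intro p hp
    have h2 : u (p + 1) ⟨p, by omega⟩ = 0 :=
      h.sup (p + 1) (by omega) ⟨p, by omega⟩ (Or.inl (by simp))
    simp only [Pi.sub_apply, Pi.smul_apply, smul_eq_mul, h2, mul_zero, sub_zero]
    exact mul_ne_zero (hr (p + 1) (by omega)) (h.left p (by omega))
  right := by
    intro p hp
    have h1 : u p ⟨p + (t + 1), hp⟩ = 0 :=
      h.sup p (by omega) ⟨p + (t + 1), hp⟩ (Or.inr (by simp only; omega))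
    simp only [Pi.sub_apply, Pi.smul_apply, smul_eq_mul, h1, mul_zero, zero_sub]
    refine neg_ne_zero.2 (mul_ne_zero (hr p (by omega)) ?_)
    have h3 := h.right (p + 1) (by omega)
    have h4 : (⟨p + 1 + t, by omega⟩ : Fin n) = ⟨p + (t + 1), hp⟩ := by
      apply Fin.ext; simp only; omega
    rwa [h4] at h3
  uniq := by
    intro p v hv hs
    have hv' : ∀ s < t, dot (row s) v = 0 := by
      intro s hst
      have h1 := hv s (by omega)
      rwa [Function.update_of_ne (Nat.ne_of_lt hst)] at h1
    have hvr : dot r v = 0 := by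
      have h1 := hv t (by omega)
      rwa [Function.update_self] at h1
    rcases Nat.lt_or_ge (p + t) n with hp | hp
    · set i : Fin n := ⟨p + t, hp⟩ with hi
      have hβ : u p i ≠ 0 := h.right p hp
      set a : ZMod b := v i / u p i with ha
      have h0 : v - a • u p = 0 := by
        refine h.uniq p _ ?_ ?_
        · intro s hst
          rw [lin_dot_sub_right, lin_dot_smul_right, hv' s hst, h.ker s hst p hp]
          ring
        · intro q hq
          rcases Nat.lt_or_ge (q : ℕ) p with h1 | h1
          · have e1 := hs q (Or.inl h1)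
            have e2 := h.sup p hp q (Or.inl h1)
            simp only [Pi.sub_apply, Pi.smul_apply, smul_eq_mul, e1, e2, mul_zero, sub_zero]
          · have h2 : p + t ≤ (q : ℕ) := by omega
            rcases Nat.lt_or_ge (p + t) (q : ℕ) with h3 | h3
            · have e1 := hs q (Or.inr (by omega))
              have e2 := h.sup p hp q (Or.inr (by omega))
              simp only [Pi.sub_apply, Pi.smul_apply, smul_eq_mul, e1, e2, mul_zero, sub_zero]
            · have h4 : q = i := by apply Fin.ext; rw [hi]; simp only; omega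
              rw [h4]
              simp only [Pi.sub_apply, Pi.smul_apply, smul_eq_mul, ha]
              rw [div_mul_cancel₀ _ hβ, sub_self]
      have h1 : v = a • u p := sub_eq_zero.1 h0
      have h2 : a * dot r (u p) = 0 := by
        rw [← lin_dot_smul_right, ← h1]; exact hvr
      rcases mul_eq_zero.1 h2 with h3 | h3
      · rw [h1, h3, zero_smul]
      · exact absurd h3 (hr p hp)
    · refine h.uniq p v hv' ?_
      intro q hq
      have := q.2
      exact hs q (by omega)

theorem exists_row [Fact b.Prime] {row : ℕ → Vec b n} {t : ℕ} {u : ℕ → Vec b n} (h : Ker row t u)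
    (c : ℕ → ZMod b) : ∃ r : Vec b n, ∀ p, p + t < n → dot r (u p) = c p := by
  have key : ∀ m : ℕ, ∃ r : Vec b n, ∀ p, p + t < n → n ≤ p + t + m → dot r (u p) = c p := by
    intro m
    induction m with
    | zero => exact ⟨0, fun p h1 h2 => by omega⟩
    | succ m ih =>
      obtain ⟨r, hr⟩ := ih
      by_cases hm : ∃ p0, p0 + t + (m + 1) = n
      · obtain ⟨p0, hp0⟩ := hm
        have hp0n : p0 < n := by omega
        have hp0t : p0 + t < n := by omega
        have hne : u p0 ⟨p0, hp0n⟩ ≠ 0 := h.left p0 hp0t
        refine ⟨r + Pi.single ⟨p0, hp0n⟩ ((c p0 - dot r (u p0)) / u p0 ⟨p0, hp0n⟩), ?_⟩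
        intro p h1 h2
        rw [lin_dot_add_left, lin_dot_single]
        rcases Nat.lt_or_ge p0 p with h3 | h3
        · have e1 : u p ⟨p0, hp0n⟩ = 0 := h.sup p h1 ⟨p0, hp0n⟩ (Or.inl h3)
          rw [e1, mul_zero, add_zero]
          exact hr p h1 (by omega)
        · have e1 : p = p0 := by omega
          subst e1
          rw [div_mul_cancel₀ _ hne]
          ring
      · exact ⟨r, fun p h1 h2 => hr p h1 (by
          by_contra h3
          exact hm ⟨p, by omega⟩)⟩
  obtain ⟨r, hr⟩ := key n
  exact ⟨r, fun p hp => hr p hp (by omega)⟩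

theorem exists_w [Fact b.Prime] {row : ℕ → Vec b n} {t : ℕ} {u : ℕ → Vec b n} (h : Ker row t u)
    (sig Z : ℕ → ZMod b) (X Y : Vec b n) {p : ℕ} (hp : p + t ≤ n) :
    ∃ w : Vec b n, mtch row sig Z t w ∧ (∀ q : Fin n, (q : ℕ) < p → w q = X q) ∧
      ∀ q : Fin n, p + t ≤ (q : ℕ) → w q = Y q := by
  -- the vectors supported on `[p, p + t)`
  set emb : (Fin t → ZMod b) → Vec b n := fun y q =>
    if hq : p ≤ (q : ℕ) ∧ (q : ℕ) < p + t then y ⟨(q : ℕ) - p, by omega⟩ else 0 with hemb
  have emb_sub : ∀ y y', emb (y - y') = emb y - emb y' := by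
    intro y y'
    funext q
    simp only [hemb, Pi.sub_apply]
    split_ifs with hq
    · rfl
    · ring
  have emb_supp : ∀ y, supp p t (emb y) := by
    intro y q hq
    simp only [hemb]
    rw [dif_neg (by omega)]
  have emb_at : ∀ y (j : Fin t), emb y ⟨p + j, by have := j.2; omega⟩ = y j := by
    intro y j
    have hj := j.2
    simp only [hemb]
    rw [dif_pos ⟨by omega, by omega⟩]
    congr 1
    apply Fin.ext
    simp only
    omega
  set L : (Fin t → ZMod b) → (Fin t → ZMod b) := fun y s => dot (row s) (emb y) with hL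
  have hinj : Function.Injective L := by
    intro y y' hyy
    have h1 : emb (y - y') = 0 := by
      refine h.uniq p _ ?_ (emb_supp _)
      intro s hs
      rw [emb_sub, lin_dot_sub_right]
      have h2 := congrFun hyy ⟨s, hs⟩
      simp only [hL] at h2
      rw [h2, sub_self]
    funext j
    have h2 := emb_at (y - y') j
    rw [h1] at h2
    simp only [Pi.zero_apply, Pi.sub_apply] at h2
    exact sub_eq_zero.1 h2.symm
  have hsurj : Function.Surjective L := Finite.surjective_of_injective hinj
  set w0 : Vec b n := fun q => if (q : ℕ) < p then X q else if p + t ≤ (q : ℕ) then Y q else 0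
    with hw0
  obtain ⟨y, hy⟩ := hsurj (fun s => Z s - sig s - dot (row s) w0)
  refine ⟨w0 + emb y, ?_, ?_, ?_⟩
  · intro s hs
    rw [lin_dot_add_right]
    have h1 := congrFun hy ⟨s, hs⟩
    simp only [hL] at h1
    rw [h1]
    ring
  · intro q hq
    have h1 : emb y q = 0 := emb_supp y q (Or.inl hq)
    rw [Pi.add_apply, h1, add_zero, hw0]
    simp only [if_pos hq]
  · intro q hq
    have h1 : emb y q = 0 := emb_supp y q (Or.inr hq)
    rw [Pi.add_apply, h1, add_zero, hw0]
    have h2 : ¬ (q : ℕ) < p := by omega
    simp only [if_neg h2, if_pos hq]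

end DiscUB
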