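import Pool.Agent.Work.DiscUB.Lin

/-!
# Random digital nets in a large base: the structure of one row (helper2)
-/

namespace DiscUB

open Finset

variable {b n : ℕ}

theorem row_eq_of_agree [Fact b.Prime] {row : ℕ → Vec b n} {t : ℕ} {u : ℕ → Vec b n}
    (h : Ker row t u) {sig Z : ℕ → ZMod b} {k k' : Vec b n} (hk : mtch row sig Z t k)
    (hk' : mtch row sig Z t k') {p : ℕ} (h1 : ∀ q : Fin n, (q : ℕ) < p → k q = k' q)
    (h2 : ∀ q : Fin n, p + t ≤ (q : ℕ) → k q = k' q) : k = k' := by
  have h0 : k - k' = 0 := by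
    refine h.uniq p _ (fun s hs => ?_) (fun q hq => ?_)
    · rw [lin_dot_sub_right]
      have e1 := hk s hs
      have e2 := hk' s hs
      linear_combination e1 - e2
    · rcases hq with hq | hq
      · simp only [Pi.sub_apply, h1 q hq, sub_self]
      · simp only [Pi.sub_apply, h2 q hq, sub_self]
  exact sub_eq_zero.1 h0

theorem row_span1 [Fact b.Prime] {row : ℕ → Vec b n} {t : ℕ} {u : ℕ → Vec b n} (h : Ker row t u)
    {p : ℕ} (hp : p + t < n) {v : Vec b n} (hv : ∀ s < t, dot (row s) v = 0)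
    (hs : supp p (t + 1) v) :
    v = (v ⟨p, by omega⟩ / u p ⟨p, by omega⟩) • u p := by
  have hpn : p < n := by omega
  have hne : u p ⟨p, hpn⟩ ≠ 0 := h.left p hp
  set a : ZMod b := v ⟨p, hpn⟩ / u p ⟨p, hpn⟩ with ha
  have h0 : v - a • u p = 0 := by
    refine h.uniq (p + 1) _ (fun s hst => ?_) (fun q hq => ?_)
    · rw [lin_dot_sub_right, lin_dot_smul_right, hv s hst, h.ker s hst p hp]
      ring
    · rcases Nat.lt_trichotomy (q : ℕ) p with h1 | h1 | h1
      · have e1 := hs q (Or.inl h1)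
        have e2 := h.sup p hp q (Or.inl h1)
        simp only [Pi.sub_apply, Pi.smul_apply, smul_eq_mul, e1, e2, mul_zero, sub_zero]
      · have hqp : q = ⟨p, hpn⟩ := Fin.ext h1
        subst hqp
        simp only [Pi.sub_apply, Pi.smul_apply, smul_eq_mul, ha]
        rw [div_mul_cancel₀ _ hne, sub_self]
      · have h3 : p + (t + 1) ≤ (q : ℕ) := by omega
        have e1 := hs q (Or.inr h3)
        have e2 := h.sup p hp q (Or.inr h3)
        simp only [Pi.sub_apply, Pi.smul_apply, smul_eq_mul, e1, e2, mul_zero, sub_zero]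
  exact sub_eq_zero.1 h0

theorem row_span2 [Fact b.Prime] {row : ℕ → Vec b n} {t : ℕ} {u : ℕ → Vec b n} (h : Ker row t u)
    {p : ℕ} (hp : p + 1 + t < n) {v : Vec b n} (hv : ∀ s < t, dot (row s) v = 0)
    (hs : supp p (t + 2) v) : ∃ ν ν' : ZMod b, v = ν • u p + ν' • u (p + 1) := by
  have hpn : p < n := by omega
  have hpt : p + t < n := by omega
  have hne : u p ⟨p, hpn⟩ ≠ 0 := h.left p hpt
  have h1 : v - (v ⟨p, hpn⟩ / u p ⟨p, hpn⟩) • u p
      = ((v - (v ⟨p, hpn⟩ / u p ⟨p, hpn⟩) • u p) ⟨p + 1, by omega⟩ / u (p + 1) ⟨p + 1, by omega⟩)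
        • u (p + 1) := by
    refine row_span1 h hp (fun s hst => ?_) (fun q hq => ?_)
    · rw [lin_dot_sub_right, lin_dot_smul_right, hv s hst, h.ker s hst p hpt]
      ring
    · rcases Nat.lt_trichotomy (q : ℕ) p with h1 | h1 | h1
      · have e1 := hs q (Or.inl h1)
        have e2 := h.sup p hpt q (Or.inl h1)
        simp only [Pi.sub_apply, Pi.smul_apply, smul_eq_mul, e1, e2, mul_zero, sub_zero]
      · have hqp : q = ⟨p, hpn⟩ := Fin.ext h1
        subst hqp
        simp only [Pi.sub_apply, Pi.smul_apply, smul_eq_mul]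
        rw [div_mul_cancel₀ _ hne, sub_self]
      · have h3 : p + 1 + (t + 1) ≤ (q : ℕ) := by omega
        have e1 := hs q (Or.inr (by omega))
        have e2 := h.sup p hpt q (Or.inr (by omega))
        simp only [Pi.sub_apply, Pi.smul_apply, smul_eq_mul, e1, e2, mul_zero, sub_zero]
  exact ⟨_, _, by rw [← h1]; abel⟩

/-- `i` is the first index where `k` differs from `X`, `i'` the last one where it differs from
`Y` -/
def row_E (X Y k : Vec b n) (i i' : Fin n) : Prop :=
  ((∀ q < i, k q = X q) ∧ (k i).val < (X i).val) ∧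
    ((∀ q, i' < q → k q = Y q) ∧ (k i').val < (Y i').val)

theorem row_fst_uniq {X k : Vec b n} {i j : Fin n} (hi : (∀ q < i, k q = X q) ∧
    (k i).val < (X i).val) (hj : (∀ q < j, k q = X q) ∧ (k j).val < (X j).val) : i = j := by
  rcases lt_trichotomy i j with h | h | h
  · have := hi.2
    rw [hj.1 i h] at this
    exact absurd this (lt_irrefl _)
  · exact h
  · have := hj.2
    rw [hi.1 j h] at this
    exact absurd this (lt_irrefl _)

theorem row_lst_uniq {Y k : Vec b n} {i j : Fin n} (hi : (∀ q, i < q → k q = Y q) ∧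
    (k i).val < (Y i).val) (hj : (∀ q, j < q → k q = Y q) ∧ (k j).val < (Y j).val) : i = j := by
  rcases lt_trichotomy i j with h | h | h
  · have := hj.2
    rw [hi.1 j h] at this
    exact absurd this (lt_irrefl _)
  · exact h
  · have := hi.2
    rw [hj.1 i h] at this
    exact absurd this (lt_irrefl _)

open Classical in
theorem row_split (X Y k : Vec b n) (M : Prop) (g : ℝ) :
    (if M ∧ ltx k X ∧ lty k Y then g else 0) =
      ∑ i : Fin n, ∑ i' : Fin n, if M ∧ row_E X Y k i i' then g else 0 := by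
  by_cases hM : M
  · by_cases hx : ltx k X
    · by_cases hy : lty k Y
      · obtain ⟨i, hi⟩ := hx
        obtain ⟨j, hj⟩ := hy
        rw [if_pos ⟨hM, ⟨i, hi⟩, ⟨j, hj⟩⟩, Finset.sum_eq_single i, Finset.sum_eq_single j,
          if_pos ⟨hM, hi, hj⟩]
        · intro j' _ hj'
          exact if_neg fun hc => hj' (row_lst_uniq hc.2.2 hj)
        · intro hc
          exact absurd (mem_univ _) hc
        · intro i' _ hi'
          exact Finset.sum_eq_zero fun j' _ => if_neg fun hc => hi' (row_fst_uniq hc.2.1 hi)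
        · intro hc
          exact absurd (mem_univ _) hc
      · rw [if_neg fun hc => hy hc.2.2]
        refine (Finset.sum_eq_zero fun i _ => Finset.sum_eq_zero fun i' _ => if_neg fun hc => ?_).symm
        exact hy ⟨i', hc.2.2⟩
    · rw [if_neg fun hc => hx hc.2.1]
      refine (Finset.sum_eq_zero fun i _ => Finset.sum_eq_zero fun i' _ => if_neg fun hc => ?_).symm
      exact hx ⟨i, hc.2.1⟩
  · rw [if_neg fun hc => hM hc.1]
    exact (Finset.sum_eq_zero fun i _ => Finset.sum_eq_zero fun i' _ => if_neg fun hc => hM hc.1).symm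

theorem row_sum_shift [Fact b.Prime] {G : ZMod b → ℝ} (hG : ∑ x, G x = 0) {c : ZMod b}
    (hc : c ≠ 0) (x : ZMod b) : ∑ a : ZMod b, G (x + a * c) = 0 := by
  have h1 : ∑ a : ZMod b, G (x + a * c) = ∑ y, G y := by
    refine Fintype.sum_bijective (fun a : ZMod b => x + a * c) ?_ _ _ (fun a => rfl)
    constructor
    · intro a a' haa
      have h2 : a * c = a' * c := add_left_cancel haa
      exact mul_right_cancel₀ hc h2
    · intro y
      refine ⟨(y - x) / c, ?_⟩
      simp only
      rw [div_mul_cancel₀ _ hc]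
      ring
  rw [h1, hG]

open Classical in
/-- the sum over the points with given first and last differing index -/
noncomputable def row_S [NeZero b] (row : ℕ → Vec b n) (sig Z : ℕ → ZMod b) (X Y : Vec b n)
    (t : ℕ) (r : Vec b n) (σ : ZMod b) (G : ZMod b → ℝ) (i i' : Fin n) : ℝ :=
  ∑ k : Vec b n, if mtch row sig Z t k ∧ row_E X Y k i i' then G (dot r k + σ) else 0

theorem row_TT_eq [Fact b.Prime] (row : ℕ → Vec b n) (sig Z : ℕ → ZMod b) (X Y : Vec b n)
    (t : ℕ) (r : Vec b n) (σ : ZMod b) (G : ZMod b → ℝ) :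
    TT row sig Z X Y t r σ G = ∑ i : Fin n, ∑ i' : Fin n, row_S row sig Z X Y t r σ G i i' := by
  unfold TT row_S
  rw [Finset.sum_congr rfl fun k _ => row_split X Y k (mtch row sig Z t k) (G (dot r k + σ)),
    Finset.sum_comm]
  exact Finset.sum_congr rfl fun i _ => Finset.sum_comm

theorem row_mtch_add {row : ℕ → Vec b n} {sig Z : ℕ → ZMod b} {t : ℕ} {k v : Vec b n}
    (hv : ∀ s < t, dot (row s) v = 0) : mtch row sig Z t (k + v) ↔ mtch row sig Z t k := by
  unfold mtch
  refine forall_congr' fun s => forall_congr' fun hs => ?_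
  rw [lin_dot_add_right, hv s hs, add_zero]

/-- case (1) -/
theorem row_far [Fact b.Prime] {row : ℕ → Vec b n} {t : ℕ} {u : ℕ → Vec b n} (h : Ker row t u)
    (sig Z : ℕ → ZMod b) (X Y r : Vec b n) (σ : ZMod b) {G : ZMod b → ℝ} (hG : ∑ x, G x = 0)
    (hr : ∀ p, p + t < n → dot r (u p) ≠ 0) {i i' : Fin n} (hi : (i : ℕ) + t + 1 < i') :
    row_S row sig Z X Y t r σ G i i' = 0 := by
  classical
  have hp : (i : ℕ) + 1 + t < n := by have := i'.2; omega
  have hc := hr _ hp
  have hsup := h.sup _ hp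
  have hker : ∀ s < t, dot (row s) (u ((i : ℕ) + 1)) = 0 := fun s hs => h.ker s hs _ hp
  have hE : ∀ (a : ZMod b) (k : Vec b n),
      row_E X Y (k + a • u ((i : ℕ) + 1)) i i' ↔ row_E X Y k i i' := by
    intro a k
    have e1 : ∀ q : Fin n, q ≤ i → (k + a • u ((i : ℕ) + 1)) q = k q := by
      intro q hq
      have : u ((i : ℕ) + 1) q = 0 := hsup q (Or.inl (by have := Fin.le_def.1 hq; omega))
      simp only [Pi.add_apply, Pi.smul_apply, smul_eq_mul, this, mul_zero, add_zero]
    have e2 : ∀ q : Fin n, i' ≤ q → (k + a • u ((i : ℕ) + 1)) q = k q := by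
      intro q hq
      have : u ((i : ℕ) + 1) q = 0 := hsup q (Or.inr (by have := Fin.le_def.1 hq; omega))
      simp only [Pi.add_apply, Pi.smul_apply, smul_eq_mul, this, mul_zero, add_zero]
    unfold row_E
    rw [e1 i le_rfl, e2 i' le_rfl]
    have e3 : (∀ q < i, (k + a • u ((i : ℕ) + 1)) q = X q) ↔ ∀ q < i, k q = X q :=
      forall_congr' fun q => forall_congr' fun hq => by rw [e1 q hq.le]
    have e4 : (∀ q, i' < q → (k + a • u ((i : ℕ) + 1)) q = Y q) ↔ ∀ q, i' < q → k q = Y q :=
      forall_congr' fun q => forall_congr' fun hq => by rw [e2 q hq.le]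
    rw [e3, e4]
  have hstep : ∀ a : ZMod b, row_S row sig Z X Y t r σ G i i' =
      ∑ k : Vec b n, if mtch row sig Z t k ∧ row_E X Y k i i' then
        G (dot r k + σ + a * dot r (u ((i : ℕ) + 1))) else 0 := by
    intro a
    unfold row_S
    rw [← Equiv.sum_comp (Equiv.addRight (a • u ((i : ℕ) + 1)))]
    refine Finset.sum_congr rfl fun k _ => ?_
    simp only [Equiv.coe_addRight]
    have hk : mtch row sig Z t (k + a • u ((i : ℕ) + 1)) ↔ mtch row sig Z t k :=
      row_mtch_add fun s hs => by rw [lin_dot_smul_right, hker s hs, mul_zero]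
    rw [hE, hk, lin_dot_add_right, lin_dot_smul_right]
    congr 2
    ring
  have hsum : ∑ _a : ZMod b, row_S row sig Z X Y t r σ G i i' = 0 := by
    rw [Finset.sum_congr rfl fun a _ => hstep a, Finset.sum_comm]
    refine Finset.sum_eq_zero fun k _ => ?_
    by_cases hk : mtch row sig Z t k ∧ row_E X Y k i i'
    · simp only [if_pos hk]
      exact row_sum_shift hG hc _
    · simp only [if_neg hk, Finset.sum_const_zero]
  rw [Finset.sum_const, nsmul_eq_mul] at hsum
  rcases mul_eq_zero.1 hsum with h1 | h1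
  · exfalso
    have : (univ : Finset (ZMod b)).card = 0 := by exact_mod_cast h1
    rw [Finset.card_eq_zero] at this
    exact (Finset.univ_nonempty.ne_empty) this
  · exact h1

/-! ### the matching points -/

/-- the points `w_p` -/
structure row_W (row : ℕ → Vec b n) (sig Z : ℕ → ZMod b) (X Y : Vec b n) (t : ℕ)
    (w : ℕ → Vec b n) : Prop where
  m : ∀ p, p + t ≤ n → mtch row sig Z t (w p)
  l : ∀ p, p + t ≤ n → ∀ q : Fin n, (q : ℕ) < p → w p q = X q
  r : ∀ p, p + t ≤ n → ∀ q : Fin n, p + t ≤ (q : ℕ) → w p q = Y q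

theorem row_exists_W [Fact b.Prime] {row : ℕ → Vec b n} {t : ℕ} {u : ℕ → Vec b n}
    (h : Ker row t u) (sig Z : ℕ → ZMod b) (X Y : Vec b n) :
    ∃ w : ℕ → Vec b n, row_W row sig Z X Y t w := by
  classical
  have h1 : ∀ p : ℕ, ∃ w : Vec b n, p + t ≤ n → mtch row sig Z t w ∧
      (∀ q : Fin n, (q : ℕ) < p → w q = X q) ∧ ∀ q : Fin n, p + t ≤ (q : ℕ) → w q = Y q := by
    intro p
    by_cases hp : p + t ≤ n
    · obtain ⟨w, hw⟩ := exists_w h sig Z X Y hp
      exact ⟨w, fun _ => hw⟩
    · exact ⟨0, fun hc => absurd hc hp⟩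
  choose w hw using h1
  exact ⟨w, fun p hp => (hw p hp).1, fun p hp => (hw p hp).2.1, fun p hp => (hw p hp).2.2⟩

theorem row_mtch_sub {row : ℕ → Vec b n} {sig Z : ℕ → ZMod b} {t : ℕ} {k k' : Vec b n}
    (hk : mtch row sig Z t k) (hk' : mtch row sig Z t k') : ∀ s < t, dot (row s) (k - k') = 0 := by
  intro s hs
  have e1 := hk s hs
  have e2 := hk' s hs
  rw [lin_dot_sub_right]
  linear_combination e1 - e2

theorem row_exists_mu [Fact b.Prime] {row : ℕ → Vec b n} {t : ℕ} {u : ℕ → Vec b n}
    (h : Ker row t u) {sig Z : ℕ → ZMod b} {X Y : Vec b n} {w : ℕ → Vec b n}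
    (hw : row_W row sig Z X Y t w) :
    ∃ μ : ℕ → ZMod b, ∀ p, p + t < n → w p = w (p + 1) + μ p • u p := by
  classical
  have h1 : ∀ p : ℕ, ∃ a : ZMod b, p + t < n → w p = w (p + 1) + a • u p := by
    intro p
    by_cases hp : p + t < n
    · have h2 : supp p (t + 1) (w p - w (p + 1)) := by
        intro q hq
        rcases hq with hq | hq
        · rw [Pi.sub_apply, hw.l p (by omega) q hq, hw.l (p + 1) (by omega) q (by omega), sub_self]
        · rw [Pi.sub_apply, hw.r p (by omega) q (by omega), hw.r (p + 1) (by omega) q (by omega),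
            sub_self]
      have h3 := row_span1 h hp (row_mtch_sub (hw.m p (by omega)) (hw.m (p + 1) (by omega))) h2
      exact ⟨_, fun _ => by rw [← h3]; abel⟩
    · exact ⟨0, fun hc => absurd hc hp⟩
  choose μ hμ using h1
  exact ⟨μ, hμ⟩

theorem row_dot_w [Fact b.Prime] {t : ℕ} {u : ℕ → Vec b n} {w : ℕ → Vec b n} {μ : ℕ → ZMod b}
    (hμ : ∀ p, p + t < n → w p = w (p + 1) + μ p • u p) (r : Vec b n) (σ : ZMod b) {p : ℕ}
    (hp : p + t ≤ n) :
    dot r (w p) + σ = vs μ (fun p => dot r (u p)) (dot r (w 0) + σ) p := by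
  induction p with
  | zero => simp [vs]
  | succ p ih =>
    have h1 := ih (by omega)
    have h2 := hμ p (by omega)
    unfold vs at h1 ⊢
    rw [Finset.sum_range_succ]
    have h3 : dot r (w p) = dot r (w (p + 1)) + μ p * dot r (u p) := by
      rw [h2, lin_dot_add_right, lin_dot_smul_right]
    linear_combination h1 - h3

open Classical in
/-- case (2) -/
theorem row_case2 [Fact b.Prime] {row : ℕ → Vec b n} {t : ℕ} {u : ℕ → Vec b n} (h : Ker row t u)
    {sig Z : ℕ → ZMod b} {X Y : Vec b n} {w : ℕ → Vec b n} (hw : row_W row sig Z X Y t w)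
    {μ : ℕ → ZMod b} (hμ : ∀ p, p + t < n → w p = w (p + 1) + μ p • u p) (r : Vec b n)
    (σ : ZMod b) (G : ZMod b → ℝ) {N N' : ℕ → Finset (ZMod b)} {i i' : Fin n}
    (hi : (i' : ℕ) = i + t + 1)
    (hN : N i = univ.filter (fun ν : ZMod b => (X i + ν * u i i).val < (X i).val))
    (hN' : N' i = univ.filter (fun ν : ZMod b => (Y i' + ν * u (i + 1) i').val < (Y i').val)) :
    row_S row sig Z X Y t r σ G i i' =
      X0 μ N N' G (dot r (w 0) + σ) (fun p => dot r (u p)) i := by
  have hi' := i'.2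
  have hp1 : (i : ℕ) + 1 + t < n := by omega
  have hp0 : (i : ℕ) + t < n := by omega
  have hne0 : u (i : ℕ) i ≠ 0 := h.left i hp0
  have hne1 : u ((i : ℕ) + 1) i' ≠ 0 := by
    have h1 := h.right ((i : ℕ) + 1) hp1
    have h2 : (⟨(i : ℕ) + 1 + t, hp1⟩ : Fin n) = i' := by apply Fin.ext; simp only; omega
    rwa [h2] at h1
  have hs0 := h.sup (i : ℕ) hp0
  have hs1 := h.sup ((i : ℕ) + 1) hp1
  have hw1 := hw.l ((i : ℕ) + 1) (by omega)
  have hw2 := hw.r ((i : ℕ) + 1) (by omega)
  have hwm := hw.m ((i : ℕ) + 1) (by omega)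
  have key : ∀ (ν ν' : ZMod b) (q : Fin n), ((q : ℕ) < i ∨ i' < q → (w ((i : ℕ) + 1) + ν • u (i : ℕ)
      + ν' • u ((i : ℕ) + 1)) q = w ((i : ℕ) + 1) q) := by
    intro ν ν' q hq
    have e0 : u (i : ℕ) q = 0 := hs0 q (by rcases hq with hq | hq
                                           · exact Or.inl hq
                                           · right; have := Fin.lt_def.1 hq; omega)
    have e1 : u ((i : ℕ) + 1) q = 0 := hs1 q (by rcases hq with hq | hq
                                                 · left; omega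
                                                 · right; have := Fin.lt_def.1 hq; omega)
    simp only [Pi.add_apply, Pi.smul_apply, smul_eq_mul, e0, e1, mul_zero, add_zero]
  have keyi : ∀ (ν ν' : ZMod b), (w ((i : ℕ) + 1) + ν • u (i : ℕ)
      + ν' • u ((i : ℕ) + 1)) i = X i + ν * u (i : ℕ) i := by
    intro ν ν'
    have e1 : u ((i : ℕ) + 1) i = 0 := hs1 i (by left; omega)
    have e2 := hw1 i (by omega)
    simp only [Pi.add_apply, Pi.smul_apply, smul_eq_mul, e1, e2, mul_zero, add_zero]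
  have keyi' : ∀ (ν ν' : ZMod b), (w ((i : ℕ) + 1) + ν • u (i : ℕ)
      + ν' • u ((i : ℕ) + 1)) i' = Y i' + ν' * u ((i : ℕ) + 1) i' := by
    intro ν ν'
    have e1 : u (i : ℕ) i' = 0 := hs0 i' (by right; omega)
    have e2 := hw2 i' (by omega)
    simp only [Pi.add_apply, Pi.smul_apply, smul_eq_mul, e1, e2, mul_zero, add_zero]
  unfold row_S X0
  rw [← Finset.sum_filter, ← Finset.sum_product']
  symm
  refine Finset.sum_nbij (fun p : ZMod b × ZMod b => w ((i : ℕ) + 1) + p.1 • u (i : ℕ)
      + p.2 • u ((i : ℕ) + 1)) ?_ ?_ ?_ ?_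
  · rintro ⟨ν, ν'⟩ hν
    rw [Finset.mem_product, hN, hN', Finset.mem_filter, Finset.mem_filter] at hν
    rw [Finset.mem_filter]
    refine ⟨mem_univ _, ?_, ⟨?_, ?_⟩, ?_, ?_⟩
    · rw [add_assoc, row_mtch_add]
      · exact hwm
      · intro s hs
        rw [lin_dot_add_right, lin_dot_smul_right, lin_dot_smul_right, h.ker s hs _ hp0,
          h.ker s hs _ hp1]
        ring
    · intro q hq
      have hq' := Fin.lt_def.1 hq
      simp only
      rw [key ν ν' q (Or.inl hq'), hw1 q (by omega)]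
    · simp only
      rw [keyi]
      exact hν.1.2
    · intro q hq
      have hq' := Fin.lt_def.1 hq
      simp only
      rw [key ν ν' q (Or.inr hq), hw2 q (by omega)]
    · simp only
      rw [keyi']
      exact hν.2.2
  · rintro ⟨ν, ν'⟩ _ ⟨μ1, μ1'⟩ _ heq
    simp only at heq
    have h1 := congrFun heq i
    have h2 := congrFun heq i'
    rw [keyi, keyi] at h1
    rw [keyi', keyi'] at h2
    have h3 := mul_right_cancel₀ hne0 (add_left_cancel h1)
    have h4 := mul_right_cancel₀ hne1 (add_left_cancel h2)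
    rw [h3, h4]
  · intro k hk
    rw [Finset.coe_filter] at hk
    obtain ⟨-, hkm, ⟨hk1, hk2⟩, hk3, hk4⟩ := hk
    have hsup : supp (i : ℕ) (t + 2) (k - w ((i : ℕ) + 1)) := by
      intro q hq
      rcases hq with hq | hq
      · rw [Pi.sub_apply, hk1 q (Fin.lt_def.2 hq), hw1 q (by omega), sub_self]
      · rw [Pi.sub_apply, hk3 q (Fin.lt_def.2 (by omega)), hw2 q (by omega), sub_self]
    obtain ⟨ν, ν', hνν⟩ := row_span2 h hp1 (row_mtch_sub hkm hwm) hsup
    have hkeq : k = w ((i : ℕ) + 1) + ν • u (i : ℕ) + ν' • u ((i : ℕ) + 1) := by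
      rw [add_assoc, ← hνν]; abel
    refine ⟨(ν, ν'), ?_, hkeq.symm⟩
    rw [Finset.coe_product, Set.mem_prod, hN, hN']
    simp only [Finset.coe_filter, Set.mem_ofPred_eq, mem_univ, true_and]
    rw [hkeq, keyi] at hk2
    rw [hkeq, keyi'] at hk4
    exact ⟨hk2, hk4⟩
  · rintro ⟨ν, ν'⟩ _
    simp only
    rw [← row_dot_w hμ r σ (show (i : ℕ) + 1 + t ≤ n by omega)]
    congr 1
    rw [lin_dot_add_right, lin_dot_add_right, lin_dot_smul_right, lin_dot_smul_right]
    ring

open Classical in
/-- case (3) -/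
theorem row_case3 [Fact b.Prime] {row : ℕ → Vec b n} {t : ℕ} {u : ℕ → Vec b n} (h : Ker row t u)
    {sig Z : ℕ → ZMod b} {X Y : Vec b n} {w : ℕ → Vec b n} (hw : row_W row sig Z X Y t w)
    {μ : ℕ → ZMod b} (hμ : ∀ p, p + t < n → w p = w (p + 1) + μ p • u p) (r : Vec b n)
    (σ : ZMod b) (G : ZMod b → ℝ) {B : ℕ → Finset (ZMod b)} {i i' : Fin n}
    (hi : (i' : ℕ) = i + t)
    (hB : B i = univ.filter (fun ν : ZMod b => (X i + ν * u i i).val < (X i).val ∧
      (w (i + 1) i' + ν * u i i').val < (Y i').val)) :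
    row_S row sig Z X Y t r σ G i i' =
      X1 μ B G (dot r (w 0) + σ) (fun p => dot r (u p)) i := by
  have hi' := i'.2
  have hp0 : (i : ℕ) + t < n := by omega
  have hne0 : u (i : ℕ) i ≠ 0 := h.left i hp0
  have hs0 := h.sup (i : ℕ) hp0
  have hw1 := hw.l ((i : ℕ) + 1) (by omega)
  have hw2 := hw.r ((i : ℕ) + 1) (by omega)
  have hwm := hw.m ((i : ℕ) + 1) (by omega)
  have key : ∀ (ν : ZMod b) (q : Fin n), ((q : ℕ) < i ∨ i' < q → (w ((i : ℕ) + 1) + ν • u (i : ℕ)) q
      = w ((i : ℕ) + 1) q) := by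
    intro ν q hq
    have e0 : u (i : ℕ) q = 0 := hs0 q (by rcases hq with hq | hq
                                           · exact Or.inl hq
                                           · right; have := Fin.lt_def.1 hq; omega)
    simp only [Pi.add_apply, Pi.smul_apply, smul_eq_mul, e0, mul_zero, add_zero]
  have keyi : ∀ (ν : ZMod b), (w ((i : ℕ) + 1) + ν • u (i : ℕ)) i = X i + ν * u (i : ℕ) i := by
    intro ν
    have e2 := hw1 i (by omega)
    simp only [Pi.add_apply, Pi.smul_apply, smul_eq_mul, e2]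
  have keyi' : ∀ (ν : ZMod b), (w ((i : ℕ) + 1) + ν • u (i : ℕ)) i' =
      w ((i : ℕ) + 1) i' + ν * u (i : ℕ) i' := by
    intro ν
    simp only [Pi.add_apply, Pi.smul_apply, smul_eq_mul]
  unfold row_S X1
  rw [← Finset.sum_filter]
  symm
  refine Finset.sum_nbij (fun ν : ZMod b => w ((i : ℕ) + 1) + ν • u (i : ℕ)) ?_ ?_ ?_ ?_
  · intro ν hν
    rw [hB, Finset.mem_filter] at hν
    rw [Finset.mem_filter]
    refine ⟨mem_univ _, ?_, ⟨?_, ?_⟩, ?_, ?_⟩
    · rw [row_mtch_add]
      · exact hwm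
      · intro s hs
        rw [lin_dot_smul_right, h.ker s hs _ hp0, mul_zero]
    · intro q hq
      have hq' := Fin.lt_def.1 hq
      rw [key ν q (Or.inl hq'), hw1 q (by omega)]
    · rw [keyi]
      exact hν.2.1
    · intro q hq
      have hq' := Fin.lt_def.1 hq
      rw [key ν q (Or.inr hq), hw2 q (by omega)]
    · rw [keyi']
      exact hν.2.2
  · intro ν _ ν1 _ heq
    simp only at heq
    have h1 := congrFun heq i
    rw [keyi, keyi] at h1
    exact mul_right_cancel₀ hne0 (add_left_cancel h1)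
  · intro k hk
    rw [Finset.coe_filter] at hk
    obtain ⟨-, hkm, ⟨hk1, hk2⟩, hk3, hk4⟩ := hk
    have hsup : supp (i : ℕ) (t + 1) (k - w ((i : ℕ) + 1)) := by
      intro q hq
      rcases hq with hq | hq
      · rw [Pi.sub_apply, hk1 q (Fin.lt_def.2 hq), hw1 q (by omega), sub_self]
      · rw [Pi.sub_apply, hk3 q (Fin.lt_def.2 (by omega)), hw2 q (by omega), sub_self]
    have hν := row_span1 h hp0 (row_mtch_sub hkm hwm) hsup
    set ν := (k - w ((i : ℕ) + 1)) ⟨(i : ℕ), by omega⟩ / u (i : ℕ) ⟨(i : ℕ), by omega⟩ with hνdef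
    have hkeq : k = w ((i : ℕ) + 1) + ν • u (i : ℕ) := by
      rw [← hν]; abel
    refine ⟨ν, ?_, hkeq.symm⟩
    rw [hB]
    simp only [Finset.coe_filter, Set.mem_ofPred_eq, mem_univ, true_and]
    have e1 : k i = X i + ν * u (i : ℕ) i := by rw [hkeq]; exact keyi ν
    have e2 : k i' = w ((i : ℕ) + 1) i' + ν * u (i : ℕ) i' := by rw [hkeq]; exact keyi' ν
    rw [e1] at hk2
    rw [e2] at hk4
    exact ⟨hk2, hk4⟩
  · intro ν _
    simp only
    rw [← row_dot_w hμ r σ (show (i : ℕ) + 1 + t ≤ n by omega)]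
    congr 1
    rw [lin_dot_add_right, lin_dot_smul_right]
    ring

theorem row_case4 [Fact b.Prime] {row : ℕ → Vec b n} {t : ℕ} {u : ℕ → Vec b n} (h : Ker row t u)
    (ht : t < n) {sig Z : ℕ → ZMod b} {X Y : Vec b n} {w : ℕ → Vec b n}
    (hw : row_W row sig Z X Y t w) {k : Vec b n} (hk : mtch row sig Z t k) {i i' : Fin n}
    (hE : row_E X Y k i i') (hi : (i' : ℕ) < i + t) : k = w (min (i : ℕ) (n - t)) := by
  have hp : min (i : ℕ) (n - t) + t ≤ n := by
    have := min_le_right (i : ℕ) (n - t)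
    omega
  refine row_eq_of_agree h hk (hw.m _ hp) (p := min (i : ℕ) (n - t)) (fun q hq => ?_)
    (fun q hq => ?_)
  · rw [hw.l _ hp q hq]
    exact hE.1.1 q (Fin.lt_def.2 (lt_of_lt_of_le hq (min_le_left _ _)))
  · rw [hw.r _ hp q hq]
    refine hE.2.1 q (Fin.lt_def.2 ?_)
    have := q.2
    rcases min_choice (i : ℕ) (n - t) with h1 | h1
    · rw [h1] at hq
      omega
    · rw [h1] at hq
      omega

theorem row_rest [Fact b.Prime] {row : ℕ → Vec b n} {t : ℕ} {u : ℕ → Vec b n} (h : Ker row t u)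
    (ht : t < n) {sig Z : ℕ → ZMod b} {X Y : Vec b n} {w : ℕ → Vec b n}
    (hw : row_W row sig Z X Y t w) (r : Vec b n) (σ : ZMod b) {G : ZMod b → ℝ}
    (hG1 : ∀ x, |G x| ≤ 1) :
    |∑ i : Fin n, ∑ i' : Fin n, if (i' : ℕ) < i + t then row_S row sig Z X Y t r σ G i i' else 0| ≤
      (n : ℝ) - t + 1 := by
  classical
  have h1 : (∑ i : Fin n, ∑ i' : Fin n, if (i' : ℕ) < i + t then
      row_S row sig Z X Y t r σ G i i' else 0) =
      ∑ k : Vec b n, ∑ i : Fin n, ∑ i' : Fin n,
        if (i' : ℕ) < i + t ∧ mtch row sig Z t k ∧ row_E X Y k i i' then G (dot r k + σ) else 0 := by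
    rw [Finset.sum_comm]
    simp_rw [Finset.sum_comm (s := (univ : Finset (Vec b n)))]
    rw [Finset.sum_comm]
    refine Finset.sum_congr rfl fun i _ => ?_
    refine Finset.sum_congr rfl fun i' _ => ?_
    by_cases hc : (i' : ℕ) < i + t
    · rw [if_pos hc]
      unfold row_S
      refine Finset.sum_congr rfl fun k _ => ?_
      by_cases hk : mtch row sig Z t k ∧ row_E X Y k i i'
      · rw [if_pos hk, if_pos ⟨hc, hk⟩]
      · rw [if_neg hk, if_neg fun hh => hk hh.2]
    · rw [if_neg hc]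
      exact (Finset.sum_eq_zero fun k _ => if_neg fun hh => hc hh.1).symm
  have h2 : ∀ k : Vec b n, |∑ i : Fin n, ∑ i' : Fin n,
        if (i' : ℕ) < i + t ∧ mtch row sig Z t k ∧ row_E X Y k i i' then G (dot r k + σ) else 0| ≤
      if k ∈ (range (n - t + 1)).image w then 1 else 0 := by
    intro k
    by_cases hex : ∃ i i' : Fin n, (i' : ℕ) < i + t ∧ mtch row sig Z t k ∧ row_E X Y k i i'
    · obtain ⟨i, i', hc, hk, hE⟩ := hex
      have hmem : k ∈ (range (n - t + 1)).image w := by
        rw [Finset.mem_image]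
        refine ⟨min (i : ℕ) (n - t), ?_, (row_case4 h ht hw hk hE hc).symm⟩
        rw [Finset.mem_range]
        have := min_le_right (i : ℕ) (n - t)
        omega
      rw [if_pos hmem, Finset.sum_eq_single i, Finset.sum_eq_single i', if_pos ⟨hc, hk, hE⟩]
      · exact hG1 _
      · intro j _ hj
        exact if_neg fun hh => hj (row_lst_uniq hh.2.2.2 hE.2)
      · intro hc
        exact absurd (mem_univ _) hc
      · intro j _ hj
        exact Finset.sum_eq_zero fun j' _ => if_neg fun hh => hj (row_fst_uniq hh.2.2.1 hE.1)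
      · intro hc
        exact absurd (mem_univ _) hc
    · have h0 : (∑ i : Fin n, ∑ i' : Fin n,
          if (i' : ℕ) < i + t ∧ mtch row sig Z t k ∧ row_E X Y k i i' then G (dot r k + σ) else 0)
          = 0 :=
        Finset.sum_eq_zero fun i _ => Finset.sum_eq_zero fun i' _ => if_neg fun hh =>
          hex ⟨i, i', hh⟩
      rw [h0, abs_zero]
      split_ifs <;> norm_num
  rw [h1]
  refine (Finset.abs_sum_le_sum_abs _ _).trans ((Finset.sum_le_sum fun k _ => h2 k).trans ?_)
  rw [← Finset.sum_filter, Finset.sum_const, nsmul_eq_mul, mul_one]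
  have h3 : (univ.filter fun k : Vec b n => k ∈ (range (n - t + 1)).image w).card ≤ n - t + 1 := by
    have h4 : (univ.filter fun k : Vec b n => k ∈ (range (n - t + 1)).image w)
        = (range (n - t + 1)).image w := by
      ext k
      simp
    rw [h4]
    exact Finset.card_image_le.trans (by rw [Finset.card_range])
  have h5 : ((n - t + 1 : ℕ) : ℝ) = (n : ℝ) - t + 1 := by
    rw [Nat.cast_add, Nat.cast_sub ht.le]
    norm_num
  rw [← h5]
  exact_mod_cast h3

theorem row_sum_range (m c : ℕ) (f : ℕ → ℝ) (hm : m + c = n) :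
    (∑ i : Fin n, if (i : ℕ) + c < n then f i else 0) = ∑ i ∈ range m, f i := by
  rw [Fin.sum_univ_eq_sum_range (fun i => if i + c < n then f i else 0) n, ← Finset.sum_filter]
  refine Finset.sum_congr ?_ fun i _ => rfl
  ext i
  simp only [mem_filter, mem_range]
  omega

theorem row_struct [Fact b.Prime] {row : ℕ → Vec b n} {t : ℕ} {u : ℕ → Vec b n} (h : Ker row t u)
    (ht : t < n) (sig Z : ℕ → ZMod b) (X Y : Vec b n) :
    ∃ (w0 : Vec b n) (μ : ℕ → ZMod b) (N N' B : ℕ → Finset (ZMod b)),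
      (∀ i, 0 ∉ N i) ∧ (∀ i, 0 ∉ N' i) ∧ (∀ i, μ i ∉ B i) ∧
      ∀ (r : Vec b n) (σ : ZMod b) (G : ZMod b → ℝ), ∑ x, G x = 0 → (∀ x, |G x| ≤ 1) →
        (∀ p, p + t < n → dot r (u p) ≠ 0) →
        |TT row sig Z X Y t r σ G
          - Ph (n - t) μ N N' B G (dot r w0 + σ) (fun p => dot r (u p))| ≤ (n : ℝ) - t + 1 := by
  classical
  obtain ⟨w, hw⟩ := row_exists_W h sig Z X Y
  obtain ⟨μ, hμ⟩ := row_exists_mu h hw
  set N : ℕ → Finset (ZMod b) := fun i => if hi : i < n then
    univ.filter (fun ν : ZMod b => (X ⟨i, hi⟩ + ν * u i ⟨i, hi⟩).val < (X ⟨i, hi⟩).val) else ∅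
    with hNdef
  set N' : ℕ → Finset (ZMod b) := fun i => if hi : i + t + 1 < n then
    univ.filter (fun ν : ZMod b => (Y ⟨i + t + 1, hi⟩ + ν * u (i + 1) ⟨i + t + 1, hi⟩).val <
      (Y ⟨i + t + 1, hi⟩).val) else ∅ with hN'def
  set B : ℕ → Finset (ZMod b) := fun i => if hi : i + t < n then
    univ.filter (fun ν : ZMod b => (X ⟨i, by omega⟩ + ν * u i ⟨i, by omega⟩).val <
      (X ⟨i, by omega⟩).val ∧ (w (i + 1) ⟨i + t, hi⟩ + ν * u i ⟨i + t, hi⟩).val <
      (Y ⟨i + t, hi⟩).val) else ∅ with hBdef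
  refine ⟨w 0, μ, N, N', B, ?_, ?_, ?_, ?_⟩
  · intro i
    simp only [hNdef]
    split_ifs with hi
    · simp
    · simp
  · intro i
    simp only [hN'def]
    split_ifs with hi
    · simp
    · simp
  · intro i
    simp only [hBdef]
    split_ifs with hi
    · rw [Finset.mem_filter]
      rintro ⟨-, -, h1⟩
      have h2 := congrFun (hμ i hi) ⟨i + t, hi⟩
      rw [hw.r i (by omega) ⟨i + t, hi⟩ le_rfl] at h2
      simp only [Pi.add_apply, Pi.smul_apply, smul_eq_mul] at h2
      rw [← h2] at h1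
      exact absurd h1 (lt_irrefl _)
    · simp
  · intro r σ G hG hG1 hr
    set V := dot r (w 0) + σ with hV
    set c : ℕ → ZMod b := fun p => dot r (u p) with hc
    have hS : ∀ i i' : Fin n, row_S row sig Z X Y t r σ G i i' =
        (if (i' : ℕ) = i + t + 1 then X0 μ N N' G V c i else 0) +
        (if (i' : ℕ) = i + t then X1 μ B G V c i else 0) +
        (if (i' : ℕ) < i + t then row_S row sig Z X Y t r σ G i i' else 0) := by
      intro i i'
      have hi' := i'.2
      rcases Nat.lt_or_ge ((i : ℕ) + t + 1) i' with h1 | h1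
      · rw [row_far h sig Z X Y r σ hG hr h1, if_neg (by omega), if_neg (by omega),
          if_neg (by omega)]
        norm_num
      · rcases Nat.lt_or_ge (i' : ℕ) (i + t) with h2 | h2
        · rw [if_neg (by omega), if_neg (by omega), if_pos h2]
          ring
        · rcases Nat.lt_or_ge ((i : ℕ) + t) i' with h3 | h3
          · have h4 : (i' : ℕ) = i + t + 1 := by omega
            rw [if_pos h4, if_neg (by omega), if_neg (by omega), add_zero, add_zero]
            refine row_case2 h hw hμ r σ G h4 ?_ ?_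
            · simp only [hNdef]
              rw [dif_pos i.2]
            · simp only [hN'def]
              rw [dif_pos (show (i : ℕ) + t + 1 < n by omega)]
              have h5 : (⟨(i : ℕ) + t + 1, by omega⟩ : Fin n) = i' := Fin.ext h4.symm
              rw [h5]
          · have h4 : (i' : ℕ) = i + t := by omega
            rw [if_neg (by omega), if_pos h4, if_neg (by omega), add_zero, zero_add]
            refine row_case3 h hw hμ r σ G h4 ?_
            simp only [hBdef]
            rw [dif_pos (show (i : ℕ) + t < n by omega)]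
            have h5 : (⟨(i : ℕ) + t, by omega⟩ : Fin n) = i' := Fin.ext h4.symm
            rw [h5]
    have hTT : TT row sig Z X Y t r σ G = Ph (n - t) μ N N' B G V c +
        ∑ i : Fin n, ∑ i' : Fin n,
          if (i' : ℕ) < i + t then row_S row sig Z X Y t r σ G i i' else 0 := by
      rw [row_TT_eq]
      have e0 : (∑ i : Fin n, ∑ i' : Fin n, row_S row sig Z X Y t r σ G i i') =
          (∑ i : Fin n, ∑ i' : Fin n, if (i' : ℕ) = i + t + 1 then X0 μ N N' G V c i else 0) +
          (∑ i : Fin n, ∑ i' : Fin n, if (i' : ℕ) = i + t then X1 μ B G V c i else 0) +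
          ∑ i : Fin n, ∑ i' : Fin n,
            if (i' : ℕ) < i + t then row_S row sig Z X Y t r σ G i i' else 0 := by
        rw [← Finset.sum_add_distrib, ← Finset.sum_add_distrib]
        refine Finset.sum_congr rfl fun i _ => ?_
        rw [← Finset.sum_add_distrib, ← Finset.sum_add_distrib]
        exact Finset.sum_congr rfl fun i' _ => hS i i'
      have e1 : (∑ i : Fin n, ∑ i' : Fin n, if (i' : ℕ) = i + t + 1 then X0 μ N N' G V c i else 0)
          = ∑ i ∈ range (n - t - 1), X0 μ N N' G V c i := by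
        rw [← row_sum_range (n := n) (n - t - 1) (t + 1) (fun i => X0 μ N N' G V c i) (by omega)]
        refine Finset.sum_congr rfl fun i _ => ?_
        by_cases hi : (i : ℕ) + (t + 1) < n
        · rw [if_pos hi, Finset.sum_eq_single ⟨(i : ℕ) + t + 1, by omega⟩]
          · rw [if_pos rfl]
          · intro j _ hj
            exact if_neg fun hh => hj (Fin.ext hh)
          · intro hh
            exact absurd (mem_univ _) hh
        · rw [if_neg hi]
          refine Finset.sum_eq_zero fun j _ => if_neg fun hh => hi ?_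
          have := j.2
          omega
      have e2 : (∑ i : Fin n, ∑ i' : Fin n, if (i' : ℕ) = i + t then X1 μ B G V c i else 0)
          = ∑ i ∈ range (n - t), X1 μ B G V c i := by
        rw [← row_sum_range (n := n) (n - t) t (fun i => X1 μ B G V c i) (by omega)]
        refine Finset.sum_congr rfl fun i _ => ?_
        by_cases hi : (i : ℕ) + t < n
        · rw [if_pos hi, Finset.sum_eq_single ⟨(i : ℕ) + t, hi⟩]
          · rw [if_pos rfl]
          · intro j _ hj
            exact if_neg fun hh => hj (Fin.ext hh)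
          · intro hh
            exact absurd (mem_univ _) hh
        · rw [if_neg hi]
          refine Finset.sum_eq_zero fun j _ => if_neg fun hh => hi ?_
          have := j.2
          omega
      rw [e0, e1, e2]
      rfl
    rw [hTT, add_sub_cancel_left]
    exact row_rest h ht hw r σ hG1

end DiscUB
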