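import Pool.Agent.Work.DiscUB.Avg
import Pool.Agent.Work.DiscUB.Chain
import Pool.Agent.Work.DiscUB.Row

/-!
# U5a: exponential moment of one row
-/

namespace DiscUB

open Finset

variable {b n : ℕ}

theorem rowexp_vs_congr {μ c c' : ℕ → ZMod b} (V : ZMod b) {i m : ℕ} (hi : i ≤ m)
    (h : ∀ p < m, c p = c' p) : vs μ c V i = vs μ c' V i := by
  unfold vs
  congr 1
  refine Finset.sum_congr rfl fun j hj => ?_
  rw [h j (lt_of_lt_of_le (Finset.mem_range.1 hj) hi)]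

theorem rowexp_Ph_congr {m : ℕ} {μ : ℕ → ZMod b} {N N' B : ℕ → Finset (ZMod b)} {G : ZMod b → ℝ}
    {V : ZMod b} {c c' : ℕ → ZMod b} (h : ∀ p < m, c p = c' p) :
    Ph m μ N N' B G V c = Ph m μ N N' B G V c' := by
  unfold Ph
  congr 1
  · refine Finset.sum_congr rfl fun i hi => ?_
    have hi := Finset.mem_range.1 hi
    unfold X0
    refine Finset.sum_congr rfl fun ν _ => Finset.sum_congr rfl fun ν' _ => ?_
    rw [rowexp_vs_congr V (show i + 1 ≤ m by omega) h, h i (by omega), h (i + 1) (by omega)]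
  · refine Finset.sum_congr rfl fun i hi => ?_
    have hi := Finset.mem_range.1 hi
    unfold X1
    refine Finset.sum_congr rfl fun ν _ => ?_
    rw [rowexp_vs_congr V (show i + 1 ≤ m by omega) h, h i (by omega)]

theorem row_exp [Fact b.Prime] {row : ℕ → Vec b n} {t : ℕ} {u : ℕ → Vec b n} (h : Ker row t u)
    (ht : t < n) (sig Z : ℕ → ZMod b) (X Y : Vec b n) (R : (ℕ → (ZMod b)ˣ) → Vec b n)
    (hR : ∀ a p, p + t < n → dot (R a) (u p) = (a p : ZMod b)) {G : ZMod b → ℝ}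
    (hG : ∑ x, G x = 0) (hG1 : ∀ x, |G x| ≤ 1) {lam : ℝ} (hl : 0 ≤ lam)
    (hlb : lam * (2 * (b : ℝ) ^ 2) ≤ 1) :
    Ex (n - t) (fun a : ℕ → (ZMod b)ˣ => (b : ℝ)⁻¹ * ∑ σ : ZMod b,
        Real.exp (lam * TT row sig Z X Y t (R a) σ G)) ≤
      Real.exp (((n : ℝ) - t + 1) * (4 * lam + 4 * lam ^ 2 * (b : ℝ) ^ 4)) := by
  have hb0 : (0 : ℝ) < b := by exact_mod_cast (Fact.out : b.Prime).pos
  obtain ⟨w0, μ, N, N', B, hN, hN', hB, hmain⟩ := row_struct h ht sig Z X Y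
  have hm : ((n - t : ℕ) : ℝ) = (n : ℝ) - t := Nat.cast_sub ht.le
  set m := n - t with hmdef
  have hm0 : (0 : ℝ) ≤ (n : ℝ) - t := by rw [← hm]; exact Nat.cast_nonneg _
  set K := Real.exp (lam * ((n : ℝ) - t + 1)) with hK
  -- pointwise bound
  have h1 : ∀ a : ℕ → (ZMod b)ˣ, (b : ℝ)⁻¹ * ∑ σ : ZMod b,
      Real.exp (lam * TT row sig Z X Y t (R a) σ G) ≤
      K * ((b : ℝ)⁻¹ * ∑ V : ZMod b,
        Real.exp (lam * Ph m μ N N' B G V (fun i => (a i : ZMod b)))) := by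
    intro a
    have hc : ∀ p < m, dot (R a) (u p) = (a p : ZMod b) := fun p hp => hR a p (by omega)
    have h2 : ∀ σ : ZMod b, Real.exp (lam * TT row sig Z X Y t (R a) σ G) ≤
        K * Real.exp (lam * Ph m μ N N' B G (dot (R a) w0 + σ) (fun i => (a i : ZMod b))) := by
      intro σ
      have h3 := hmain (R a) σ G hG hG1 (fun p hp => by rw [hR a p hp]; exact Units.ne_zero _)
      rw [rowexp_Ph_congr (c' := fun i => (a i : ZMod b)) hc] at h3
      have h4 := (abs_le.1 h3).2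
      rw [hK, ← Real.exp_add]
      apply Real.exp_le_exp.2
      have h5 : TT row sig Z X Y t (R a) σ G ≤ ((n : ℝ) - t + 1) +
          Ph m μ N N' B G (dot (R a) w0 + σ) (fun i => (a i : ZMod b)) := by linarith
      calc lam * TT row sig Z X Y t (R a) σ G ≤ lam * (((n : ℝ) - t + 1) +
          Ph m μ N N' B G (dot (R a) w0 + σ) (fun i => (a i : ZMod b))) :=
            mul_le_mul_of_nonneg_left h5 hl
        _ = _ := by ring
    calc (b : ℝ)⁻¹ * ∑ σ : ZMod b, Real.exp (lam * TT row sig Z X Y t (R a) σ G)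
        ≤ (b : ℝ)⁻¹ * ∑ σ : ZMod b, K *
          Real.exp (lam * Ph m μ N N' B G (dot (R a) w0 + σ) (fun i => (a i : ZMod b))) :=
          mul_le_mul_of_nonneg_left (Finset.sum_le_sum fun σ _ => h2 σ) (by positivity)
      _ = (b : ℝ)⁻¹ * ∑ V : ZMod b, K *
          Real.exp (lam * Ph m μ N N' B G V (fun i => (a i : ZMod b))) := by
          congr 1
          exact Equiv.sum_comp (Equiv.addLeft (dot (R a) w0)) (fun V => K *
            Real.exp (lam * Ph m μ N N' B G V (fun i => (a i : ZMod b))))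
      _ = _ := by rw [← Finset.mul_sum]; ring
  refine le_trans (Ex_mono h1) ?_
  rw [Ex_const_mul, Ex_const_mul, Ex_sum]
  have h6 : ∀ V : ZMod b, Ex m (fun a : ℕ → (ZMod b)ˣ =>
      Real.exp (lam * Ph m μ N N' B G V (fun i => (a i : ZMod b)))) ≤
      Real.exp (m * (3 * lam + 4 * lam ^ 2 * (b : ℝ) ^ 4)) :=
    fun V => chain_exp hN hN' hB hG hG1 V hl hlb
  have h7 : (b : ℝ)⁻¹ * ∑ V : ZMod b, Ex m (fun a : ℕ → (ZMod b)ˣ =>
      Real.exp (lam * Ph m μ N N' B G V (fun i => (a i : ZMod b)))) ≤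
      Real.exp (m * (3 * lam + 4 * lam ^ 2 * (b : ℝ) ^ 4)) := by
    have h8 := Finset.sum_le_sum fun (V : ZMod b) (_ : V ∈ (univ : Finset (ZMod b))) => h6 V
    rw [Finset.sum_const, Finset.card_univ, ZMod.card, nsmul_eq_mul] at h8
    rw [inv_mul_le_iff₀ hb0]
    exact h8
  calc K * ((b : ℝ)⁻¹ * ∑ V : ZMod b, Ex m (fun a : ℕ → (ZMod b)ˣ =>
      Real.exp (lam * Ph m μ N N' B G V (fun i => (a i : ZMod b)))))
      ≤ K * Real.exp (m * (3 * lam + 4 * lam ^ 2 * (b : ℝ) ^ 4)) :=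
        mul_le_mul_of_nonneg_left h7 (Real.exp_pos _).le
    _ ≤ _ := by
        rw [hK, ← Real.exp_add]
        apply Real.exp_le_exp.2
        rw [hm]
        have h9 : 0 ≤ lam ^ 2 * (b : ℝ) ^ 4 := by positivity
        nlinarith

end DiscUB
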